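import Pool.Agent.Lib.MP_29ab50_al.U

set_option autoImplicit false

namespace Pool.Agent.Results.MP_29ab50_al.Embed

universe u

open scoped Pointwise in
theorem aux (S : Type u) [CommSemigroup S]
    (h : ∀ a : S, (Subsemigroup.closure ({a} : Set S) : Set S).Finite) :
    ∃ (G : Type u) (_ : CommGroup G), (∀ g : G, ∃ n : ℕ, 0 < n ∧ g ^ n = 1) ∧
      ∃ f : S → Set G, Function.Injective f ∧ (∀ s : S, (f s).Nonempty) ∧
        ∀ s t : S, f (s * t) = {x : G | ∃ a ∈ f s, ∃ b ∈ f t, x = a * b} := by
  obtain ⟨G, hG, htor, f, hf, hne⟩ := Pool.Agent.Lib.MP_29ab50_al.U.main S h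
  refine ⟨G, hG, fun g => isOfFinOrder_iff_pow_eq_one.1 (htor g), f, hf, hne, fun s t => ?_⟩
  rw [map_mul]
  ext x
  constructor
  · rintro ⟨a, ha, b, hb, rfl⟩
    exact ⟨a, ha, b, hb, rfl⟩
  · rintro ⟨a, ha, b, hb, rfl⟩
    exact ⟨a, ha, b, hb, rfl⟩

/-- Every periodic commutative semigroup `S` (of any size) embeds into the power semigroup of a
periodic abelian group `G`: the elements `a, a * a, a * (a * a), ...` form a finite set for each
`a`, every element of `G` has finite order, and `f` is an injective map to nonempty subsets of `G`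
turning products into products of sets. -/
theorem result (S : Type u) [CommSemigroup S]
    (hS : ∀ a : S, {x : S | ∃ n : ℕ, x = (fun y => a * y)^[n] a}.Finite) :
    ∃ (G : Type u) (_ : CommGroup G), (∀ g : G, ∃ n : ℕ, 0 < n ∧ g ^ n = 1) ∧
      ∃ f : S → Set G, Function.Injective f ∧ (∀ s : S, (f s).Nonempty) ∧
        ∀ s t : S, f (s * t) = {x : G | ∃ a ∈ f s, ∃ b ∈ f t, x = a * b} := by
  have h : ∀ a : S, (Subsemigroup.closure ({a} : Set S) : Set S).Finite := by
    intro a
    refine (hS a).subset ?_
    have hstep : ∀ m n : ℕ, ∃ k : ℕ,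
        (fun y => a * y)^[m] a * (fun y => a * y)^[n] a = (fun y => a * y)^[k] a := by
      intro m n
      induction m with
      | zero => exact ⟨n + 1, by rw [Function.iterate_succ_apply']; rfl⟩
      | succ m ih =>
        obtain ⟨k, hk⟩ := ih
        refine ⟨k + 1, ?_⟩
        rw [Function.iterate_succ_apply', Function.iterate_succ_apply', mul_assoc, hk]
    intro x hx
    induction hx using Subsemigroup.closure_induction with
    | mem y hy => exact ⟨0, hy⟩
    | mul y z _ _ hy hz =>
      obtain ⟨m, rfl⟩ := hy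
      obtain ⟨n, rfl⟩ := hz
      exact hstep m n
  exact aux S h

end Pool.Agent.Results.MP_29ab50_al.Embed
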